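import Pool.Agent.Helper42.PW.Goals4
import Pool.Agent.Helper85.PP.DCND
import Pool.Agent.Helper5.PW.WPRO
import Pool.Agent.Helper22.PP.POMG
import Pool.Agent.Helper91.PW.WCND

/-!
# Project W (MP_fc6b1e_nt), packet W-W_SHF: translation by a class
-/

set_option autoImplicit false

namespace Pool.Agent.Helper32.PW

open NumberField Polynomial Module IsDedekindDomain
open Pool.Agent.Helper51.RP Pool.Agent.Helper42.RD Pool.Agent.Helper42.PP Pool.Agent.Helper42.PP1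
open Pool.Agent.Helper42.PB Pool.Agent.Helper11.PP Pool.Agent.Helper42.PW

theorem shf_card {C : Type*} [Group C] (β : C) {U V : Set C} (hV : V.Finite)
    (h : ∀ c ∈ U, c * β ∈ V ∨ c * β = 1) : U.Finite ∧ (U.ncard : ℝ) ≤ V.ncard + 1 := by
  have hV' : (insert (1 : C) V).Finite := hV.insert 1
  have hmaps : ∀ c ∈ U, c * β ∈ insert (1 : C) V := by
    intro c hc
    rcases h c hc with h1 | h1
    · exact Set.mem_insert_of_mem _ h1
    · rw [h1]
      exact Set.mem_insert _ _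
  have hinj : Set.InjOn (fun c : C => c * β) U := fun c _ c' _ hcc => mul_right_cancel hcc
  refine ⟨Set.Finite.of_injOn (f := fun c : C => c * β) hmaps hinj hV', ?_⟩
  have h1 : U.ncard ≤ (insert (1 : C) V).ncard :=
    Set.ncard_le_ncard_of_injOn (fun c : C => c * β) hmaps hinj hV'
  have h2 : (insert (1 : C) V).ncard ≤ V.ncard + 1 := Set.ncard_insert_le _ _
  exact_mod_cast h1.trans h2

section

variable {p : ℕ} {K K₁ : Type} [Field K] [NumberField K] [Field K₁] [NumberField K₁]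
  [Algebra K K₁]

theorem cV_large (f : ClP p K₁ → ℕ) {T : Set (ClP p K₁)} (hT : T.Infinite)
    (hfin : ∀ X : ℝ, {c | c ∈ T ∧ (f c : ℝ) ≤ X}.Finite) (n : ℕ) :
    ∃ X₁ : ℝ, ∀ X : ℝ, X₁ ≤ X → (n : ℝ) ≤ cV f T X := by
  classical
  obtain ⟨t, ht, hn⟩ := hT.exists_subset_card_eq n
  refine ⟨((t.sup f : ℕ) : ℝ), fun X hX => ?_⟩
  have h1 : (t : Set (ClP p K₁)) ⊆ {c | c ∈ T ∧ (f c : ℝ) ≤ X} := by
    intro c hc
    refine ⟨ht hc, le_trans ?_ hX⟩
    exact_mod_cast Finset.le_sup (f := f) hc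
  have h2 := Set.ncard_le_ncard h1 (hfin X)
  rw [Set.ncard_coe_finset, hn] at h2
  exact Nat.cast_le.2 h2

theorem valC_inv (b : K₁ˣ) (v : HeightOneSpectrum (𝓞 K)) (h : ValC ((clp p b)⁻¹) v) :
    ValC (clp p b) v := by
  have h1 : ValC (clp p b⁻¹) v := h
  obtain ⟨W, hW, hd⟩ := (Pool.Agent.Helper85.PP.valC_iff b⁻¹ v).1 h1
  refine (Pool.Agent.Helper85.PP.valC_iff b v).2 ⟨W, hW, fun h2 => hd ?_⟩
  have h3 : ordv W ((b⁻¹ : K₁ˣ) : K₁) = - ordv W (b : K₁) := by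
    have h4 := Pool.Agent.Helper32.RDV.ordv_mul W b.ne_zero (b⁻¹).ne_zero
    have h5 : (b : K₁) * ((b⁻¹ : K₁ˣ) : K₁) = 1 := by
      rw [← Units.val_mul, mul_inv_cancel, Units.val_one]
    rw [h5, Pool.Agent.Helper32.RDV.ordv_eq_zero W (map_one _)] at h4
    linarith
  rw [h3]
  exact (dvd_neg).2 h2

end

theorem w_shf : Pool.Agent.Helper42.PW.W_SHF := by
  intro p _ K K₁ _ _ _ _ _ ε Bd θ hθ hε b hb hM S A f hA hne hf
  classical
  obtain ⟨e, he1, he, hfe⟩ := hf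
  set β : ClP p K₁ := clp p b with hβ
  have hSf := Pool.Agent.Helper5.PW.valC_finite (K := K) β
  set S' : Finset (HeightOneSpectrum (𝓞 K)) := S ∪ hSf.toFinset with hS'
  set A' : Set (ClP p K₁) := {c | c * β⁻¹ ∈ A} with hA'
  set f' : ClP p K₁ → ℕ := fun c => f (c * β⁻¹) with hf'
  have hbi : OmType p K ε ((b⁻¹ : K₁ˣ) : K₁) := Pool.Agent.Helper22.PP.om_inv hε hb
  have hmulb : ∀ a : K₁ˣ, OmType p K ε (a : K₁) → OmType p K ε ((a * b⁻¹ : K₁ˣ) : K₁) :=
    fun a ha => Pool.Agent.Helper22.PP.om_mul hε ha hbi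
  have hmulb' : ∀ a : K₁ˣ, OmType p K ε (a : K₁) → OmType p K ε ((a * b : K₁ˣ) : K₁) :=
    fun a ha => Pool.Agent.Helper22.PP.om_mul hε ha hb
  have hsub : up K₁ S ⊆ up K₁ S' := by
    rintro W ⟨v, hv, hW⟩
    exact ⟨v, Finset.mem_union_left _ hv, hW⟩
  have hdiv : ∀ a a' : K₁ˣ, (a * b⁻¹) / (a' * b⁻¹) = a / a' := fun a a' =>
    mul_div_mul_right_eq_div a a' b⁻¹
  have hloc' : LocA p K ε S' A' := by
    intro a a' ha ha' hl hmem
    refine hA (a * b⁻¹) (a' * b⁻¹) (hmulb a ha) (hmulb a' ha') ?_ hmem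
    rw [hdiv]
    exact Pool.Agent.Helper91.PW.locS_mono hsub hl
  have hne' : ∃ a : K₁ˣ, OmType p K ε (a : K₁) ∧ clp p a ∈ A' := by
    obtain ⟨a, ha, hmem⟩ := hne
    refine ⟨a * b, hmulb' a ha, ?_⟩
    change clp p (a * b * b⁻¹) ∈ A
    rwa [mul_inv_cancel_right]
  set F : ClP p K₁ → ℕ := fun c =>
    ∏ v ∈ S'.filter (fun v => v ∉ S ∧ ValC (c * β⁻¹) v), Ideal.absNorm v.asIdeal with hF
  have hwt' : IsWt p K ε S' f' := by
    refine ⟨fun c => e (c * β⁻¹) * F c, fun c => ?_, ?_, fun c => ?_⟩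
    · refine Nat.mul_pos (he1 _) ?_
      refine Finset.prod_pos fun v _ ↦ Nat.pos_of_ne_zero fun h ↦ ?_
      exact v.ne_bot (Ideal.absNorm_eq_zero_iff.1 h)
    · intro a a' ha ha' hl
      have h1 : e (clp p a * β⁻¹) = e (clp p a' * β⁻¹) := by
        refine he (a * b⁻¹) (a' * b⁻¹) (hmulb a ha) (hmulb a' ha') ?_
        rw [hdiv]
        exact Pool.Agent.Helper91.PW.locS_mono hsub hl
      have h2 : F (clp p a) = F (clp p a') := by
        have h3 : S'.filter (fun v => v ∉ S ∧ ValC (clp p a * β⁻¹) v) =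
            S'.filter (fun v => v ∉ S ∧ ValC (clp p a' * β⁻¹) v) := by
          refine Finset.filter_congr fun v hv => ?_
          refine and_congr_right fun _ => ?_
          change ValC (clp p (a * b⁻¹)) v ↔ ValC (clp p (a' * b⁻¹)) v
          rw [Pool.Agent.Helper85.PP.valC_iff, Pool.Agent.Helper85.PP.valC_iff]
          refine exists_congr fun W => and_congr_right fun hW => not_congr ?_
          have hl' : LocS p (up K₁ S') (a * b⁻¹ / (a' * b⁻¹)) := by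
            rw [hdiv]
            exact hl
          exact Pool.Agent.Helper85.PP.loc_dvd hl' ⟨v, hv, hW⟩
        simp only [hF]
        rw [h3]
      change e (clp p a * β⁻¹) * F (clp p a) = e (clp p a' * β⁻¹) * F (clp p a')
      rw [h1, h2]
    · have h1 : condS K S (c * β⁻¹) = condS K S' c * F c := by
        have hfin1 : {v : HeightOneSpectrum (𝓞 K) | ValC (c * β⁻¹) v ∧ v ∉ S}.Finite :=
          (Pool.Agent.Helper5.PW.valC_finite (c * β⁻¹)).subset fun v hv => hv.1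
        have hfin2 : {v : HeightOneSpectrum (𝓞 K) | ValC c v ∧ v ∉ S'}.Finite :=
          (Pool.Agent.Helper5.PW.valC_finite c).subset fun v hv => hv.1
        rw [Pool.Agent.Helper5.PW.condS_eq S _ hfin1, Pool.Agent.Helper5.PW.condS_eq S' _ hfin2]
        have hun : hfin1.toFinset = hfin2.toFinset ∪
            S'.filter (fun v => v ∉ S ∧ ValC (c * β⁻¹) v) := by
          ext v
          rw [Finset.mem_union, Set.Finite.mem_toFinset, Set.Finite.mem_toFinset,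
            Finset.mem_filter]
          by_cases hv : v ∈ S'
          · constructor
            · rintro ⟨h1, h2⟩
              exact Or.inr ⟨hv, h2, h1⟩
            · rintro (⟨-, h2⟩ | ⟨-, h2, h3⟩)
              · exact absurd hv h2
              · exact ⟨h3, h2⟩
          · have hvS : v ∉ S := fun h => hv (Finset.mem_union_left _ h)
            have hvb : ¬ ValC β v := fun h =>
              hv (Finset.mem_union_right _ (hSf.mem_toFinset.2 h))
            constructor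
            · rintro ⟨h1, -⟩
              left
              refine ⟨?_, hv⟩
              rcases Pool.Agent.Helper5.PW.valC_mul c β⁻¹ v h1 with h2 | h2
              · exact h2
              · exact absurd (valC_inv b v h2) hvb
            · rintro (⟨h1, -⟩ | ⟨h1, -⟩)
              · refine ⟨?_, hvS⟩
                have h3 : ValC ((c * β⁻¹) * β) v := by
                  rwa [inv_mul_cancel_right]
                rcases Pool.Agent.Helper5.PW.valC_mul _ _ v h3 with h2 | h2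
                · exact h2
                · exact absurd h2 hvb
              · exact absurd h1 hv
        have hdis : Disjoint hfin2.toFinset
            (S'.filter (fun v => v ∉ S ∧ ValC (c * β⁻¹) v)) := by
          rw [Finset.disjoint_left]
          intro v hv hv'
          exact ((hfin2.mem_toFinset.1 hv).2) (Finset.mem_filter.1 hv').1
        rw [hun, Finset.prod_union hdis]
      change f (c * β⁻¹) = condS K S' c * (e (c * β⁻¹) * F c)
      rw [hfe, h1]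
      ring
  obtain ⟨hfin, ⟨C, X₀, hX₀, hdbl⟩, hinf, hbad⟩ := hM S' A' f' hloc' hne' hwt'
  -- the translation
  have hOm : ∀ c : ClP p K₁, c ∈ BSet p K ε → c * β ∈ BSet p K ε ∨ c * β = 1 := by
    rintro c ⟨-, a, rfl, ha⟩
    by_cases h : clp p a * β = 1
    · exact Or.inr h
    · exact Or.inl ⟨h, a * b, rfl, hmulb' a ha⟩
  have hOm' : ∀ c : ClP p K₁, c ∈ BSet p K ε → c * β⁻¹ ∈ BSet p K ε ∨ c * β⁻¹ = 1 := by
    rintro c ⟨-, a, rfl, ha⟩
    by_cases h : clp p a * β⁻¹ = 1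
    · exact Or.inr h
    · exact Or.inl ⟨h, a * b⁻¹, rfl, hmulb a ha⟩
  have hup : ∀ X : ℝ, ∀ c ∈ {c | c ∈ BSet p K ε ∩ A ∧ (f c : ℝ) ≤ X},
      c * β ∈ {c | c ∈ BSet p K ε ∩ A' ∧ (f' c : ℝ) ≤ X} ∨ c * β = 1 := by
    rintro X c ⟨⟨h1, h2⟩, h3⟩
    refine (hOm c h1).imp_left fun h4 => ⟨⟨h4, ?_⟩, ?_⟩
    · change c * β * β⁻¹ ∈ A
      rwa [mul_inv_cancel_right]
    · change (f (c * β * β⁻¹) : ℝ) ≤ X
      rwa [mul_inv_cancel_right]
  have hdown : ∀ X : ℝ, ∀ c ∈ {c | c ∈ BSet p K ε ∩ A' ∧ (f' c : ℝ) ≤ X},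
      c * β⁻¹ ∈ {c | c ∈ BSet p K ε ∩ A ∧ (f c : ℝ) ≤ X} ∨ c * β⁻¹ = 1 := by
    rintro X c ⟨⟨h1, h2⟩, h3⟩
    exact (hOm' c h1).imp_left fun h4 => ⟨⟨h4, h2⟩, h3⟩
  have hfin0 : ∀ X : ℝ, {c | c ∈ BSet p K ε ∩ A ∧ (f c : ℝ) ≤ X}.Finite := fun X =>
    (shf_card β (hfin X) (hup X)).1
  have hle1 : ∀ X : ℝ, cV f (BSet p K ε ∩ A) X ≤ cV f' (BSet p K ε ∩ A') X + 1 := fun X =>
    (shf_card β (hfin X) (hup X)).2
  have hle2 : ∀ X : ℝ, cV f' (BSet p K ε ∩ A') X ≤ cV f (BSet p K ε ∩ A) X + 1 := fun X =>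
    (shf_card β⁻¹ (hfin0 X) (hdown X)).2
  have hinf0 : (BSet p K ε ∩ A).Infinite := by
    intro hfi
    apply hinf
    refine (shf_card β⁻¹ (U := BSet p K ε ∩ A') hfi ?_).1
    rintro c ⟨h1, h2⟩
    exact (hOm' c h1).imp_left fun h4 => ⟨h4, h2⟩
  have hpos : ∀ X : ℝ, 0 ≤ cV f (BSet p K ε ∩ A) X := fun X => Nat.cast_nonneg _
  have hpos' : ∀ X : ℝ, 0 ≤ cV f' (BSet p K ε ∩ A') X := fun X => Nat.cast_nonneg _
  refine ⟨hfin0, ?_, hinf0, ?_⟩
  · obtain ⟨X₁, hX₁⟩ := cV_large f hinf0 hfin0 1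
    refine ⟨2 * max C 0 + 1, max X₀ X₁, lt_max_of_lt_left hX₀, fun X hX => ?_⟩
    have h1 := hle1 (2 * X)
    have h2 := hdbl X ((le_max_left _ _).trans hX)
    have h3 := hle2 X
    have h4 := hX₁ X ((le_max_right _ _).trans hX)
    have h5 : C * cV f' (BSet p K ε ∩ A') X ≤ max C 0 * (cV f (BSet p K ε ∩ A) X + 1) :=
      mul_le_mul (le_max_left _ _) h3 (hpos' X) (le_max_right _ _)
    have h6 : (0 : ℝ) ≤ max C 0 := le_max_right _ _
    rw [Nat.cast_one] at h4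
    nlinarith [mul_le_mul_of_nonneg_left h4 h6]
  · intro η hη
    obtain ⟨n, hn⟩ := exists_nat_ge ((θ + η / 2 + 1) / (η / 2))
    obtain ⟨X₁, hX₁⟩ := cV_large f hinf0 hfin0 n
    filter_upwards [hbad (η / 2) (half_pos hη), Filter.eventually_ge_atTop X₁] with X h1 h2
    have h3 := hX₁ X h2
    have h4 : θ + η / 2 + 1 ≤ (η / 2) * cV f (BSet p K ε ∩ A) X := by
      rw [div_le_iff₀ (half_pos hη)] at hn
      nlinarith [mul_le_mul_of_nonneg_left h3 (half_pos hη).le]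
    have h5 : cV f (BSet p K ε ∩ A ∩ {c | c * β ∈ Bd}) X ≤
        cV f' (BSet p K ε ∩ A' ∩ Bd) X + 1 := by
      refine (shf_card β ((hfin X).subset ?_) ?_).2
      · rintro c ⟨⟨h1, -⟩, h2⟩
        exact ⟨h1, h2⟩
      · rintro c ⟨⟨hc1, hc2⟩, hc3⟩
        exact (hup X c ⟨hc1, hc3⟩).imp_left fun h4 => ⟨⟨h4.1, hc2⟩, h4.2⟩
    have h6 : (θ + η / 2) * cV f' (BSet p K ε ∩ A') X ≤
        (θ + η / 2) * (cV f (BSet p K ε ∩ A) X + 1) :=
      mul_le_mul_of_nonneg_left (hle2 X) (by positivity)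
    nlinarith

end Pool.Agent.Helper32.PW
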