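import Pool.Agent.Helper42.PW.Goals2
import Pool.Agent.Helper79.RD.GOO

/-!
# Project W (MP_fc6b1e_nt), packet W-L_LOC: an element of the base field which is not a norm
-/

set_option autoImplicit false

namespace Pool.Agent.Helper32.PW

open Module Pool.Agent.Helper42.PW
open Pool.Agent.Helper79.RD (res res_coe res_pow fix_pow)

/-- `L_IDX` for a field isomorphic to a normed field. -/
theorem idx_transfer (h2 : L_IDX) (p : ℕ) [Fact p.Prime] (H : Type) [NormedField H]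
    [NormedAlgebra ℚ_[p] H] [IsUltrametricDist H] [FiniteDimensional ℚ_[p] H] (E : Type) [Field E]
    [Algebra ℚ_[p] E] (e : E ≃ₐ[ℚ_[p]] H) (σ : E ≃ₐ[ℚ_[p]] E) (hσ : orderOf σ = p) :
    ∃ u : E, u ≠ 0 ∧ σ u = u ∧ ∀ z : E, ∏ i ∈ Finset.range p, (σ ^ i) z ≠ u := by
  obtain ⟨u, hu0, hu1, hu2⟩ := h2 p H (AlgEquiv.autCongr e σ)
    ((MulEquiv.orderOf_eq (AlgEquiv.autCongr e) σ).trans hσ)
  have hc : ∀ (τ : E ≃ₐ[ℚ_[p]] E) (y : E), AlgEquiv.autCongr e τ (e y) = e (τ y) := by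
    intro τ y
    show e (τ (e.symm (e y))) = e (τ y)
    rw [AlgEquiv.symm_apply_apply]
  refine ⟨e.symm u, ?_, ?_, ?_⟩
  · intro h
    apply hu0
    rw [← e.apply_symm_apply u, h, map_zero]
  · apply e.injective
    rw [← hc, e.apply_symm_apply]
    exact hu1
  · intro z hz
    apply hu2 (e z)
    have h3 : ∀ i : ℕ, ((AlgEquiv.autCongr e σ) ^ i) (e z) = e ((σ ^ i) z) := by
      intro i
      rw [← map_pow, hc]
    rw [Finset.prod_congr rfl fun i _ ↦ h3 i, ← map_prod, hz, e.apply_symm_apply]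

/-- The telescoping of a product over the powers of an element of finite order. -/
theorem prod_shift {M : Type} [CommMonoid M] (f : ℕ → M) (d : ℕ) (h : f d = f 0) :
    ∏ j ∈ Finset.range d, f (j + 1) = ∏ j ∈ Finset.range d, f j := by
  cases d with
  | zero => simp
  | succ d =>
    rw [Finset.prod_range_succ, Finset.prod_range_succ' f, h]

theorem l_loc (h1 : L_KEX) (h2 : L_IDX) (h3 : N_EVL) (h4 : N_ALG) :
    Pool.Agent.Helper42.PW.L_LOC := by
  classical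
  intro p hpf k _ _ _ 𝓕 _ ε α β hε hα hβ hnp g n d c hgε hgα hd hdp hgd
  have hp := hpf.out
  have hβ𝓕 : β ∉ 𝓕 := fun h ↦ hnp ⟨⟨β, h⟩, Subtype.ext hβ⟩
  obtain ⟨ℋ, h, b, γ, g', hfin, hb, hspan, γF, γb, g'F, g'b, hcomm⟩ :=
    h1 p k 𝓕 ε α β hε hα hβ hβ𝓕 g n c hgε hgα
  set ι : 𝓕 →ₐ[ℚ_[p]] ℋ := IntermediateField.inclusion h with hι
  have hιinj : Function.Injective ι := ι.injective
  have hbp : b ^ p = ι α := by
    apply Subtype.ext
    show (b : k) ^ p = ((ι α : ℋ) : k)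
    rw [hb, hβ]
    rfl
  have hb0 : b ≠ 0 := by
    rintro rfl
    rw [zero_pow hp.ne_zero] at hbp
    exact hα (hιinj (by rw [map_zero]; exact hbp.symm))
  have hει : IsPrimitiveRoot (ι ε) p := hε.map_of_injective hιinj
  have hεp : (ι ε) ^ p = 1 := hει.pow_eq_one
  -- automorphisms
  have hext : ∀ f f' : ℋ ≃ₐ[ℚ_[p]] ℋ, (∀ y : 𝓕, f (ι y) = f' (ι y)) → f b = f' b → f = f' := by
    intro f f' e1 e2
    ext y
    obtain ⟨z, hz⟩ := hspan y
    congr 1
    rw [hz, map_sum, map_sum]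
    refine Finset.sum_congr rfl fun j _ ↦ ?_
    rw [map_mul, map_mul, map_pow, map_pow, e1, e2]
  have γpF : ∀ (i : ℕ) (y : 𝓕), (γ ^ i) (ι y) = ι y := by
    intro i
    induction i with
    | zero => intro y; rfl
    | succ i ih => intro y; rw [pow_succ, AlgEquiv.mul_apply, γF, ih]
  have γpb : ∀ i : ℕ, (γ ^ i) b = (ι ε) ^ i * b := by
    intro i
    induction i with
    | zero => rw [pow_zero, pow_zero, one_mul]; rfl
    | succ i ih =>
      rw [pow_succ, AlgEquiv.mul_apply, γb, map_mul, γpF, ih, pow_succ]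
      ring
  have hγp : γ ^ p = 1 := hext _ _ (fun y ↦ γpF p y) (by
    rw [γpb, hεp, one_mul]; rfl)
  have hγ1 : γ ≠ 1 := by
    intro e1
    have e2 := γb
    rw [e1] at e2
    have e3 : (ι ε - 1) * b = 0 := by
      rw [sub_mul, one_mul, ← e2]
      exact sub_self b
    rcases mul_eq_zero.1 e3 with e4 | e4
    · exact hει.ne_one hp.one_lt (sub_eq_zero.1 e4)
    · exact hb0 e4
  have hγo : orderOf γ = p := orderOf_eq_prime hγp hγ1
  have g'pF : ∀ (i : ℕ) (y : 𝓕), (g' ^ i) (ι y) = ι ((g ^ i) y) := by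
    intro i
    induction i with
    | zero => intro y; rfl
    | succ i ih =>
      intro y
      rw [pow_succ, AlgEquiv.mul_apply, g'F, ih, pow_succ, AlgEquiv.mul_apply]
  -- `g'^d` is a power of `γ`
  obtain ⟨i₀, hi₀⟩ : ∃ i : ℕ, g' ^ d = γ ^ i := by
    have e1 : ((g' ^ d) b / b) ^ p = 1 := by
      rw [div_pow, ← map_pow, hbp, g'pF, hgd, AlgEquiv.one_apply]
      exact div_self (by rw [← hbp]; exact pow_ne_zero _ hb0)
    have : NeZero p := ⟨hp.ne_zero⟩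
    obtain ⟨i, -, hi⟩ := hει.eq_pow_of_pow_eq_one e1
    refine ⟨i, hext _ _ (fun y ↦ ?_) ?_⟩
    · rw [g'pF, γpF, hgd]
      rfl
    · rw [γpb, hi, div_mul_cancel₀ _ hb0]
  have hg'dp : g' ^ (d * p) = 1 := by
    rw [pow_mul, hi₀, ← pow_mul, mul_comm, pow_mul, hγp, one_pow]
  -- `g₁`
  obtain ⟨m, hm1, hm2⟩ := Nat.chineseRemainder hdp 1 0
  have hpm : p ∣ m := (Nat.modEq_zero_iff_dvd).1 hm2
  have hgm : g ^ m = g := by
    have e1 : m ≡ 1 [MOD orderOf g] := hm1.of_dvd (orderOf_dvd_of_pow_eq_one hgd)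
    have e2 := (pow_eq_pow_iff_modEq (x := g)).2 e1
    rwa [pow_one] at e2
  obtain ⟨g₁, hg₁⟩ : ∃ g₁ : ℋ ≃ₐ[ℚ_[p]] ℋ, g₁ = g' ^ m := ⟨_, rfl⟩
  have hg₁d : g₁ ^ d = 1 := by
    obtain ⟨r, rfl⟩ := hpm
    have e1 : p * r * d = d * p * r := by ring
    rw [hg₁, ← pow_mul, e1, pow_mul, hg'dp, one_pow]
  have g₁F : ∀ y : 𝓕, g₁ (ι y) = ι (g y) := by
    intro y
    rw [hg₁, g'pF, hgm]
  have hcm : Commute γ g₁ := by
    rw [hg₁]
    refine Commute.pow_right ?_ m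
    ext y
    exact congrArg Subtype.val (hcomm y).symm
  have hcmij : ∀ (i j : ℕ) (y : ℋ), (γ ^ i) ((g₁ ^ j) y) = (g₁ ^ j) ((γ ^ i) y) := by
    intro i j y
    exact AlgEquiv.congr_fun (hcm.pow_pow i j) y
  -- the fixed field of `g₁`
  obtain ⟨E, hE⟩ : ∃ E : IntermediateField ℚ_[p] ℋ,
    E = IntermediateField.fixedField (Subgroup.zpowers g₁) := ⟨_, rfl⟩
  have hmem : ∀ y : ℋ, y ∈ E ↔ g₁ y = y := by
    intro y
    rw [hE, IntermediateField.mem_fixedField_iff]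
    constructor
    · intro e1
      exact e1 g₁ (Subgroup.mem_zpowers g₁)
    · intro e1 f hf
      have e2 : g₁ ∈ MulAction.stabilizer (ℋ ≃ₐ[ℚ_[p]] ℋ) y := e1
      have e3 : Subgroup.zpowers g₁ ≤ MulAction.stabilizer (ℋ ≃ₐ[ℚ_[p]] ℋ) y := by
        rwa [Subgroup.zpowers_le]
      exact e3 hf
  have hst1 : ∀ y ∈ E, γ y ∈ E := by
    intro y hy
    rw [hmem] at hy ⊢
    have e1 := hcmij 1 1 y
    rw [pow_one, pow_one, hy] at e1
    exact e1.symm
  have hst2 : ∀ y ∈ E, γ.symm y ∈ E := by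
    intro y hy
    rw [hmem] at hy ⊢
    apply γ.injective
    have e1 := hcmij 1 1 (γ.symm y)
    rw [pow_one, pow_one, AlgEquiv.apply_symm_apply, hy] at e1
    rw [e1, AlgEquiv.apply_symm_apply]
  obtain ⟨σ, hσ⟩ : ∃ σ : E ≃ₐ[ℚ_[p]] E, σ = res γ hst1 hst2 := ⟨_, rfl⟩
  have cσ : ∀ (i : ℕ) (y : E), (((σ ^ i) y : E) : ℋ) = (γ ^ i) (y : ℋ) := by
    intro i y
    rw [hσ, res_pow]
  have hσp : σ ^ p = 1 := by
    ext y
    rw [cσ, hγp]
    rfl
  have hσ1 : σ ≠ 1 := by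
    intro e1
    have e2 : γ ∈ E.fixingSubgroup := by
      rw [IntermediateField.mem_fixingSubgroup_iff]
      intro y hy
      have e3 := cσ 1 ⟨y, hy⟩
      rw [pow_one, pow_one, e1] at e3
      exact e3.symm
    rw [hE, IntermediateField.fixingSubgroup_fixedField] at e2
    have e4 : orderOf γ ∣ d := (orderOf_dvd_of_mem_zpowers e2).trans
      (orderOf_dvd_of_pow_eq_one hg₁d)
    rw [hγo] at e4
    have e5 : p ∣ 1 := by
      rw [← Nat.Coprime.gcd_eq_one hdp]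
      exact Nat.dvd_gcd e4 dvd_rfl
    exact hp.one_lt.ne' (Nat.dvd_one.1 e5)
  have hσo : orderOf σ = p := orderOf_eq_prime hσp hσ1
  have hfinE : FiniteDimensional ℚ_[p] E := inferInstance
  have hfinL : FiniteDimensional ℚ_[p] (IntermediateField.lift E) :=
    LinearEquiv.finiteDimensional (IntermediateField.liftAlgEquiv E).toLinearEquiv
  obtain ⟨u, hu0, hu1, hu2⟩ := idx_transfer h2 p (IntermediateField.lift E) E
    (IntermediateField.liftAlgEquiv E) σ hσo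
  have hu0' : (u : ℋ) ≠ 0 := fun e1 ↦ hu0 (Subtype.ext e1)
  have hγu : γ (u : ℋ) = u := by
    have e1 := cσ 1 u
    rw [pow_one, pow_one, hu1] at e1
    exact e1.symm
  have hg₁u : g₁ (u : ℋ) = u := (hmem _).1 u.2
  -- `u` is in `𝓕`
  have hpH : (p : ℋ) ≠ 0 := by
    have : CharZero ℋ := charZero_of_injective_algebraMap (algebraMap ℚ_[p] ℋ).injective
    exact Nat.cast_ne_zero.2 hp.ne_zero
  obtain ⟨w, hw⟩ : ∃ w : 𝓕, ι w = (u : ℋ) := by
    obtain ⟨z, hz⟩ := hspan (u : ℋ)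
    refine ⟨z 0, ?_⟩
    have e1 : ∑ i ∈ Finset.range p, (γ ^ i) (u : ℋ) = p * (u : ℋ) := by
      rw [Finset.sum_congr rfl fun i _ ↦ fix_pow (K := ℚ_[p]) (Ω := ℋ) hγu i, Finset.sum_const,
        Finset.card_range, nsmul_eq_mul]
    have e2 : ∑ i ∈ Finset.range p, (γ ^ i) (u : ℋ) = p * ι (z 0) := by
      have e3 : ∀ i ∈ Finset.range p, (γ ^ i) (u : ℋ) =
          ∑ j ∈ Finset.range p, ι (z j) * b ^ j * ((ι ε) ^ j) ^ i := by
        intro i _
        conv_lhs => rw [hz]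
        rw [map_sum]
        refine Finset.sum_congr rfl fun j _ ↦ ?_
        rw [map_mul, γpF, map_pow, γpb, mul_pow, ← pow_mul, ← pow_mul, mul_comm j i]
        ring
      rw [Finset.sum_congr rfl e3, Finset.sum_comm]
      rw [Finset.sum_eq_single 0]
      · rw [pow_zero, mul_one]
        simp only [pow_zero, one_pow, mul_one]
        rw [Finset.sum_const, Finset.card_range, nsmul_eq_mul]
      · intro j hj hj0
        rw [← Finset.mul_sum]
        have e4 : (ι ε) ^ j ≠ 1 := by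
          intro e5
          have e6 := (hει.pow_eq_one_iff_dvd j).1 e5
          exact absurd (Nat.le_of_dvd (Nat.pos_of_ne_zero hj0) e6)
            (not_le.2 (Finset.mem_range.1 hj))
        have e5 : (∑ i ∈ Finset.range p, ((ι ε) ^ j) ^ i) * ((ι ε) ^ j - 1) = 0 := by
          rw [geom_sum_mul, ← pow_mul, mul_comm j p, pow_mul, hεp, one_pow, sub_self]
        rw [(mul_eq_zero.1 e5).resolve_right (sub_ne_zero.2 e4), mul_zero]
      · intro e4
        exact absurd (Finset.mem_range.2 hp.pos) e4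
    rw [e1] at e2
    exact (mul_left_cancel₀ hpH e2).symm
  have hw0 : w ≠ 0 := by
    rintro rfl
    exact hu0' (by rw [← hw, map_zero])
  refine ⟨w, hw0, hιinj (by rw [← g₁F, hw, hg₁u]), ?_⟩
  intro z hz
  -- `u` is a norm from `ℋ`
  obtain ⟨y, hy⟩ : ∃ y : ℋ, ∏ i ∈ Finset.range p, (γ ^ i) y = (u : ℋ) := by
    refine ⟨∑ j ∈ Finset.range p, ι (z j) * b ^ j, ?_⟩
    have e1 := h4.1 p 𝓕 ℋ (ι : 𝓕 →+* ℋ) α z
    have e2 := h3 p ℋ (ι ε) b hει hb0 fun j ↦ ι (z j)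
    rw [hbp] at e2
    have e3 : ι (nf p α z) = nf p (ι α) fun j ↦ ι (z j) := e1
    rw [hz, hw, e2] at e3
    rw [e3]
    refine Finset.prod_congr rfl fun i _ ↦ ?_
    rw [map_sum]
    refine Finset.sum_congr rfl fun j _ ↦ ?_
    rw [map_mul, γpF, map_pow, γpb]
  set y' : ℋ := ∏ j ∈ Finset.range d, (g₁ ^ j) y with hy'
  have hy'E : g₁ y' = y' := by
    rw [hy', map_prod]
    have e1 := prod_shift (fun j ↦ (g₁ ^ j) y) d (by
      show (g₁ ^ d) y = (g₁ ^ 0) y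
      rw [hg₁d, pow_zero])
    rw [← e1]
    refine Finset.prod_congr rfl fun j _ ↦ ?_
    rw [pow_succ', AlgEquiv.mul_apply]
  have hNy' : ∏ i ∈ Finset.range p, (γ ^ i) y' = (u : ℋ) ^ d := by
    have e1 : ∀ i ∈ Finset.range p, (γ ^ i) y' = ∏ j ∈ Finset.range d, (g₁ ^ j) ((γ ^ i) y) := by
      intro i _
      rw [hy', map_prod]
      exact Finset.prod_congr rfl fun j _ ↦ hcmij i j y
    rw [Finset.prod_congr rfl e1, Finset.prod_comm]
    have e2 : ∀ j ∈ Finset.range d, ∏ i ∈ Finset.range p, (g₁ ^ j) ((γ ^ i) y) = (u : ℋ) := by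
      intro j _
      rw [← map_prod, hy]
      exact fix_pow (K := ℚ_[p]) (Ω := ℋ) hg₁u j
    rw [Finset.prod_congr rfl e2, Finset.prod_const, Finset.card_range]
  have hNu : ∏ i ∈ Finset.range p, (γ ^ i) (u : ℋ) = (u : ℋ) ^ p := by
    rw [Finset.prod_congr rfl fun i _ ↦ fix_pow (K := ℚ_[p]) (Ω := ℋ) hγu i, Finset.prod_const,
      Finset.card_range]
  obtain ⟨r, s, hrs⟩ : ∃ r s : ℤ, (d : ℤ) * r + p * s = 1 := by
    refine ⟨Nat.gcdA d p, Nat.gcdB d p, ?_⟩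
    have e1 := Nat.gcd_eq_gcd_ab d p
    rw [Nat.Coprime.gcd_eq_one hdp] at e1
    exact e1.symm
  have hYE : y' ^ r * (u : ℋ) ^ s ∈ E := by
    rw [hmem, map_mul, map_zpow₀, map_zpow₀, hy'E, hg₁u]
  apply hu2 ⟨y' ^ r * (u : ℋ) ^ s, hYE⟩
  apply Subtype.ext
  have e1 : ((∏ i ∈ Finset.range p, (σ ^ i) ⟨y' ^ r * (u : ℋ) ^ s, hYE⟩ : E) : ℋ) =
      ∏ i ∈ Finset.range p, (γ ^ i) (y' ^ r * (u : ℋ) ^ s) := by
    have e2 := map_prod E.val (fun i ↦ (σ ^ i) ⟨y' ^ r * (u : ℋ) ^ s, hYE⟩) (Finset.range p)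
    refine e2.trans ?_
    exact Finset.prod_congr rfl fun i _ ↦ cσ i _
  rw [e1]
  have e3 : ∀ i ∈ Finset.range p, (γ ^ i) (y' ^ r * (u : ℋ) ^ s) =
      ((γ ^ i) y') ^ r * ((γ ^ i) (u : ℋ)) ^ s := by
    intro i _
    rw [map_mul, map_zpow₀, map_zpow₀]
  rw [Finset.prod_congr rfl e3, Finset.prod_mul_distrib, Finset.prod_zpow, Finset.prod_zpow, hNy',
    hNu, ← zpow_natCast, ← zpow_natCast, ← zpow_mul, ← zpow_mul, ← zpow_add₀ hu0', hrs, zpow_one]

end Pool.Agent.Helper32.PW
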