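import Pool.Agent.Helper42.PW.Goals3
import Pool.Agent.Helper3.PPB.BTOR
import Pool.Agent.Helper13.RL.GOO2
import Pool.Agent.Helper13.RL.GOO3
import Pool.Agent.Helper38.RD.Asm

/-!
# Project W (MP_fc6b1e_nt), packet W-W_CO1: the core, `χ₀ ≠ 1`
-/

set_option autoImplicit false

namespace Pool.Agent.Helper32.PW

open NumberField Polynomial Module IsDedekindDomain TensorProduct Pool.Agent.Helper51.SigLeo
open Pool.Agent.Helper51.RP Pool.Agent.Helper77.PPB Pool.Agent.Helper42.PW
open Pool.Agent.Helper42.RD (TSet)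
open Pool.Agent.Helper79.RD (eq_on_sup mem_of_fixed exists_ext map_sup_mem map_mem_normal
  finrank_sup_coprime pow_fix fix_pow)
open Pool.Agent.Helper13.RL (res_one_iff finrank_rel normal_of_stable exists_gK resL resL_pow
  bc_inj ups ups_inj ups_equiv log_ups)

theorem iter_eq {R Ω : Type} [Field R] [Field Ω] [Algebra R Ω] (g : Ω ≃ₐ[R] Ω) (k : ℕ) (x : Ω) :
    (⇑(g : Ω →+* Ω))^[k] x = (g ^ k) x := by
  induction k with
  | zero => rfl
  | succ k ih =>
    rw [Function.iterate_succ_apply', ih, pow_succ', AlgEquiv.mul_apply]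
    rfl

theorem w_co1 (h1 : W_P1) (h2 : W_SPF) (h3 : W_NOT) : W_CO1 := by
  intro p hpf K _ _ ιinf ιp Lg S hcl M _ _ χ₀ hχ₀ hcopM χ' hχ' δ Φ P hδ hPhi htor n L F M' M₂
    _ _ _ _ _ _ _ _ _ hMM' hLM' hM'M₂ hLF hLd hFd hM' hgal hcop hT δL hδLM ε a hε ha s hs hsM₂
    hgen hSel Hf _ _ χ η hχ hη hchar
  have hp := hpf.out
  have hfM : FiniteDimensional K M := FiniteDimensional.right ℚ K M
  have hM0 : 0 < finrank K M := finrank_pos
  have hF0 : 0 < finrank K F := by rw [hFd]; exact pow_pos hp.pos _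
  have hfF : FiniteDimensional K F := FiniteDimensional.of_finrank_pos hF0
  have hL0 : 0 < finrank K L := by rw [hLd]; exact pow_pos hp.pos n
  have hfL : FiniteDimensional K L := FiniteDimensional.of_finrank_pos hL0
  have hfM₂ : FiniteDimensional K M₂ := FiniteDimensional.right ℚ K M₂
  have hfM' : FiniteDimensional K M' := FiniteDimensional.right ℚ K M'
  have hMg : IsGalois K M := inferInstance
  have hLg : IsGalois K L := inferInstance
  have hFg : IsGalois K F := inferInstance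
  have hnM : Normal K M := inferInstance
  have hnL : Normal K L := inferInstance
  have hnF : Normal K F := inferInstance
  have hnΩ : Normal K (AlgebraicClosure K) := inferInstance
  have hgΩ : IsGalois K (AlgebraicClosure K) := inferInstance
  -- inclusions
  have hM'le : M' ≤ M₂ := fun x hx => by
    have e1 := hM'M₂ ⟨x, hx⟩
    have e2 := (algebraMap M' M₂ ⟨x, hx⟩ : M₂).2
    rw [e1] at e2
    exact e2
  have hMM'le : M ≤ M' := by rw [hM']; exact le_sup_left
  have hLM'le : L ≤ M' := by rw [hM']; exact le_sup_right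
  have hMM₂ : M ≤ M₂ := hMM'le.trans hM'le
  have hLM₂ : L ≤ M₂ := hLM'le.trans hM'le
  -- the fields
  obtain ⟨H, hH⟩ : ∃ F' : IntermediateField K (AlgebraicClosure K), F' = M ⊔ F := ⟨_, rfl⟩
  obtain ⟨H₁, hH₁⟩ : ∃ F' : IntermediateField K (AlgebraicClosure K), F' = M₂ ⊔ F := ⟨_, rfl⟩
  have hdM' : finrank K M' = finrank K M * p ^ n := by
    rw [hM', finrank_sup_coprime hM0 hL0 (by rw [hLd]; exact Nat.Coprime.pow_right _ hcopM), hLd]
  have hdH : finrank K H = finrank K M * p ^ (n + 1) := by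
    rw [hH, finrank_sup_coprime hM0 hF0 (by rw [hFd]; exact Nat.Coprime.pow_right _ hcopM), hFd]
  have hMH : M ≤ H := by rw [hH]; exact le_sup_left
  have hFH : F ≤ H := by rw [hH]; exact le_sup_right
  have hLH : L ≤ H := hLF.trans hFH
  have hM'H : M' ≤ H := by rw [hM']; exact sup_le hMH hLH
  have hM₂H₁ : M₂ ≤ H₁ := by rw [hH₁]; exact le_sup_left
  have hFH₁ : F ≤ H₁ := by rw [hH₁]; exact le_sup_right
  have hHH₁ : H ≤ H₁ := by rw [hH]; exact sup_le (hMM₂.trans hM₂H₁) hFH₁
  have hfH : FiniteDimensional K H := FiniteDimensional.of_finrank_pos (by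
    rw [hdH]; exact Nat.mul_pos hM0 (pow_pos hp.pos _))
  have hfH₁ : FiniteDimensional K H₁ := by rw [hH₁]; infer_instance
  have hnfH : NumberField H := NumberField.of_module_finite K H
  have hnfH₁ : NumberField H₁ := NumberField.of_module_finite K H₁
  have hgH : IsGalois K H := by rw [hH]; infer_instance
  have nH : Normal K H := inferInstance
  have hsH₁ : s ∈ H₁ := mem_of_fixed fun g hg =>
    hgen g (fun y hy => hg y (hFH₁ hy)) (fun y hy => hg y (hM₂H₁ hy))
  -- algebras
  let _ : Algebra L F := (IntermediateField.inclusion hLF).toRingHom.toAlgebra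
  let _ : Algebra M H := (IntermediateField.inclusion hMH).toRingHom.toAlgebra
  let _ : Algebra F H := (IntermediateField.inclusion hFH).toRingHom.toAlgebra
  let _ : Algebra M' H := (IntermediateField.inclusion hM'H).toRingHom.toAlgebra
  let _ : Algebra L H := (IntermediateField.inclusion hLH).toRingHom.toAlgebra
  let _ : Algebra M₂ H₁ := (IntermediateField.inclusion hM₂H₁).toRingHom.toAlgebra
  let _ : Algebra H H₁ := (IntermediateField.inclusion hHH₁).toRingHom.toAlgebra
  have cLF : ∀ x : L, ((algebraMap L F x : F) : AlgebraicClosure K) = x := fun _ => rfl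
  have cMH : ∀ x : M, ((algebraMap M H x : H) : AlgebraicClosure K) = x := fun _ => rfl
  have cFH : ∀ x : F, ((algebraMap F H x : H) : AlgebraicClosure K) = x := fun _ => rfl
  have cM'H : ∀ x : M', ((algebraMap M' H x : H) : AlgebraicClosure K) = x := fun _ => rfl
  have cLH : ∀ x : L, ((algebraMap L H x : H) : AlgebraicClosure K) = x := fun _ => rfl
  have cM₂H₁ : ∀ x : M₂, ((algebraMap M₂ H₁ x : H₁) : AlgebraicClosure K) = x := fun _ => rfl
  have tKLF : IsScalarTower K L F := IsScalarTower.of_algebraMap_eq fun x => rfl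
  have tKLM' : IsScalarTower K L M' := IsScalarTower.of_algebraMap_eq fun x =>
    Subtype.ext (hLM' (algebraMap K L x)).symm
  have tKFH : IsScalarTower K F H := IsScalarTower.of_algebraMap_eq fun x => rfl
  have tKM'H : IsScalarTower K M' H := IsScalarTower.of_algebraMap_eq fun x => rfl
  have tKMH : IsScalarTower K M H := IsScalarTower.of_algebraMap_eq fun x => rfl
  have tKLH : IsScalarTower K L H := IsScalarTower.of_algebraMap_eq fun x => rfl
  have tLM'H : IsScalarTower L M' H := IsScalarTower.of_algebraMap_eq fun x =>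
    Subtype.ext (hLM' x).symm
  have tKM₂H₁ : IsScalarTower K M₂ H₁ := IsScalarTower.of_algebraMap_eq fun x => rfl
  -- degrees
  have hdLM' : finrank L M' = finrank K M := finrank_rel hLd (pow_pos hp.pos _) hdM' (by
    rw [mul_comm])
  have hdM'H : finrank M' H = p := finrank_rel hdM' (Nat.mul_pos hM0 (pow_pos hp.pos _)) hdH (by
    rw [pow_succ, mul_assoc])
  have hdMH : finrank M H = p ^ (n + 1) := finrank_rel rfl hM0 hdH rfl
  have hdLF : finrank L F = p := finrank_rel hLd (pow_pos hp.pos _) hFd (by rw [pow_succ])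
  -- the Kummer automorphism
  have haM₂ : ((a : M₂) : AlgebraicClosure K) ≠ 0 := fun h => ha (Subtype.ext h)
  have hεΩ : IsPrimitiveRoot ((ε : M₂) : AlgebraicClosure K) p :=
    hε.map_of_injective (f := algebraMap M₂ (AlgebraicClosure K)) (RingHom.injective _)
  obtain ⟨gK, hgM₂, hgs⟩ := exists_gK (K := K) hp hεΩ ε.2 (a : M₂).2 haM₂ hs hsM₂
  have hgM₂' : ∀ x ∈ M₂, gK.symm x = x := fun x hx => by
    rw [AlgEquiv.symm_apply_eq]; exact (hgM₂ x hx).symm
  have hgL : ∀ x ∈ L, gK x = x := fun x hx => hgM₂ x (hLM₂ hx)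
  have hgM : ∀ x ∈ M, gK x = x := fun x hx => hgM₂ x (hMM₂ hx)
  have stF : ∀ (g : AlgebraicClosure K ≃ₐ[K] AlgebraicClosure K), ∀ x ∈ F, g x ∈ F :=
    fun g x hx => map_mem_normal g hx
  have stH : ∀ (g : AlgebraicClosure K ≃ₐ[K] AlgebraicClosure K), ∀ x ∈ H, g x ∈ H :=
    fun g x hx => map_mem_normal g hx
  have st1 : ∀ (g : AlgebraicClosure K ≃ₐ[K] AlgebraicClosure K), (∀ x ∈ M₂, g x = x) →
      ∀ x ∈ H₁, g x ∈ H₁ := fun g hg => by
    rw [hH₁]; exact map_sup_mem g fun x hx => by rw [hg x hx]; exact hx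
  -- the group of `F/L`
  have hgalLF : IsGalois L F := IsGalois.tower_top_of_isGalois K L F
  have hfLF : FiniteDimensional L F := FiniteDimensional.right K L F
  have hcardLF : Nat.card (F ≃ₐ[L] F) = p := by rw [IsGalois.card_aut_eq_finrank, hdLF]
  obtain ⟨γF, hγF⟩ : ∃ γF : F ≃ₐ[L] F, γF = resL cLF gK (stF gK) (stF gK.symm) hgL := ⟨_, rfl⟩
  have pγF : ∀ (i : ℕ) (x : F), (((γF ^ i) x : F) : AlgebraicClosure K) = (gK ^ i) x :=
    fun i x => by rw [hγF, resL_pow]
  have hs0 : s ≠ 0 := by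
    intro h0
    rw [h0, zero_pow hp.ne_zero] at hs
    exact haM₂ hs.symm
  have hgF1 : ¬ ∀ y ∈ F, gK y = y := by
    intro e1
    have e3 := hgen gK e1 hgM₂
    rw [hgs] at e3
    have e4 : ((ε : M₂) : AlgebraicClosure K) = 1 := by
      have : (((ε : M₂) : AlgebraicClosure K) - 1) * s = 0 := by rw [sub_mul, e3, one_mul, sub_self]
      rcases mul_eq_zero.1 this with h' | h'
      · exact sub_eq_zero.1 h'
      · exact absurd h' hs0
    exact hεΩ.ne_one hp.one_lt e4
  have hγF1 : γF ≠ 1 := by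
    intro h
    apply hgF1
    intro y hy
    have e1 := pγF 1 ⟨y, hy⟩
    rw [pow_one, pow_one, h] at e1
    exact e1.symm
  -- every automorphism trivial on `L` is a power of `gK` on `F`
  have key : ∀ g : AlgebraicClosure K ≃ₐ[K] AlgebraicClosure K, (∀ x ∈ L, g x = x) →
      ∃ i : ℕ, ∀ x ∈ F, g x = (gK ^ i) x := by
    intro g hg
    obtain ⟨i, hi⟩ := (mem_powers_of_prime_card hcardLF hγF1 :
      resL cLF g (stF g) (stF g.symm) hg ∈ Submonoid.powers γF)
    refine ⟨i, fun x hx => ?_⟩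
    have e1 := pγF i ⟨x, hx⟩
    have e2 : (γF ^ i) ⟨x, hx⟩ = resL cLF g (stF g) (stF g.symm) hg ⟨x, hx⟩ :=
      AlgEquiv.congr_fun hi _
    rw [e2] at e1
    exact e1
  have hgFp : ∀ y ∈ F, (gK ^ p) y = y := by
    intro y hy
    have e1 := pγF p ⟨y, hy⟩
    have e2 : γF ^ p = 1 := by rw [← hcardLF]; exact pow_card_eq_one'
    rw [e2] at e1
    exact e1.symm
  -- the degree of `H₁/M₂`
  obtain ⟨γ₁, hγ₁⟩ : ∃ γ₁ : H₁ ≃ₐ[M₂] H₁,
    γ₁ = resL cM₂H₁ gK (st1 gK hgM₂) (st1 gK.symm hgM₂') hgM₂ := ⟨_, rfl⟩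
  have cγ₁ : ∀ x : H₁, ((γ₁ x : H₁) : AlgebraicClosure K) = gK x := fun x => by rw [hγ₁]; rfl
  have pγ₁ : ∀ (i : ℕ) (x : H₁), (((γ₁ ^ i) x : H₁) : AlgebraicClosure K) = (gK ^ i) x :=
    fun i x => by rw [hγ₁, resL_pow]
  have hγ₁p : γ₁ ^ p = 1 := by
    ext y
    rw [pγ₁]
    have e1 : ∀ x ∈ H₁, (gK ^ p) x = (1 : AlgebraicClosure K ≃ₐ[K] AlgebraicClosure K) x := by
      rw [hH₁]
      exact eq_on_sup (fun x hx => fix_pow (hgM₂ x hx) p) hgFp
    exact e1 y y.2
  have hγ₁1 : γ₁ ≠ 1 := by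
    intro h
    apply hgF1
    intro y hy
    have e3 := cγ₁ ⟨y, hFH₁ hy⟩
    rw [h] at e3
    exact e3.symm
  have hγ₁o : orderOf γ₁ = p := orderOf_eq_prime hγ₁p hγ₁1
  have hnM₂Ω : Normal M₂ (AlgebraicClosure K) := Normal.tower_top_of_normal K M₂ _
  have tM₂H₁Ω : IsScalarTower M₂ H₁ (AlgebraicClosure K) :=
    IsScalarTower.of_algebraMap_eq fun x => rfl
  have hnM₂H₁ : Normal M₂ H₁ := normal_of_stable (Ω := AlgebraicClosure K) fun σ b =>
    ⟨⟨σ b, st1 (σ.restrictScalars K) (fun x hx => σ.commutes ⟨x, hx⟩) b b.2⟩, rfl⟩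
  have hfM₂H₁ : FiniteDimensional M₂ H₁ := FiniteDimensional.right K M₂ H₁
  have hgM₂H₁ : IsGalois M₂ H₁ := { to_isSeparable := inferInstance, to_normal := hnM₂H₁ }
  have hdM₂H₁ : finrank M₂ H₁ = p := by
    rw [← IsGalois.card_aut_eq_finrank, ← hγ₁o, ← Nat.card_zpowers]
    have e1 : Subgroup.zpowers γ₁ = ⊤ := by
      rw [Subgroup.eq_top_iff']
      intro f
      have e2 : ∀ x : H₁, (f.liftNormal (AlgebraicClosure K)) (x : AlgebraicClosure K) =
          ((f x : H₁) : AlgebraicClosure K) := fun x =>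
        f.liftNormal_commutes (AlgebraicClosure K) x
      set f' : AlgebraicClosure K ≃ₐ[K] AlgebraicClosure K :=
        (f.liftNormal (AlgebraicClosure K)).restrictScalars K with hf'
      have e3 : ∀ x ∈ M₂, f' x = x := fun x hx =>
        (f.liftNormal (AlgebraicClosure K)).commutes ⟨x, hx⟩
      obtain ⟨i, hi⟩ := key f' fun x hx => e3 x (hLM₂ hx)
      refine ⟨i, ?_⟩
      show γ₁ ^ (i : ℤ) = f
      rw [zpow_natCast]
      ext x
      rw [pγ₁]
      have e4 : ∀ x ∈ H₁, f' x = (gK ^ i) x := by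
        rw [hH₁]
        exact eq_on_sup (fun x hx => by rw [e3 x hx, fix_pow (hgM₂ x hx)]) hi
      rw [← e4 x x.2]
      exact e2 x
    rw [e1]
    exact (Nat.card_congr Subgroup.topEquiv.toEquiv).symm
  -- the automorphisms of `H`
  obtain ⟨d, hdM, hdF⟩ := exists_ext hM0 hF0 hMg hFg (by
    rw [hFd]; exact Nat.Coprime.pow_right _ hcopM) δ
  have hdL : ∀ x ∈ L, d x = x := fun x hx => hdF x (hLF hx)
  obtain ⟨γ, hγ⟩ : ∃ γ : H ≃ₐ[L] H, γ = resL cLH gK (stH gK) (stH gK.symm) hgL := ⟨_, rfl⟩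
  obtain ⟨δ', hδ'⟩ : ∃ δ' : H ≃ₐ[L] H, δ' = resL cLH d (stH d) (stH d.symm) hdL := ⟨_, rfl⟩
  have cγ : ∀ x : H, ((γ x : H) : AlgebraicClosure K) = gK x := fun x => by rw [hγ]; rfl
  have cδ' : ∀ x : H, ((δ' x : H) : AlgebraicClosure K) = d x := fun x => by rw [hδ']; rfl
  have pγ : ∀ (i : ℕ) (x : H), (((γ ^ i) x : H) : AlgebraicClosure K) = (gK ^ i) x :=
    fun i x => by rw [hγ, resL_pow]
  have pδ' : ∀ (i : ℕ) (x : H), (((δ' ^ i) x : H) : AlgebraicClosure K) = (d ^ i) x :=
    fun i x => by rw [hδ', resL_pow]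
  -- `δL` is the restriction of `d`
  have cδL : ∀ x : M', ((δL x : M') : AlgebraicClosure K) = d x := by
    have tLM'Ω : IsScalarTower L M' (AlgebraicClosure K) :=
      IsScalarTower.of_algebraMap_eq fun x => (hLM' x).symm
    have hnLΩ : Normal L (AlgebraicClosure K) := Normal.tower_top_of_normal K L _
    have e2 : ∀ x : M', (δL.liftNormal (AlgebraicClosure K)) (x : AlgebraicClosure K) =
        ((δL x : M') : AlgebraicClosure K) := fun x =>
      δL.liftNormal_commutes (AlgebraicClosure K) x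
    set f' : AlgebraicClosure K ≃ₐ[K] AlgebraicClosure K :=
      (δL.liftNormal (AlgebraicClosure K)).restrictScalars K with hf'
    have e3 : ∀ x ∈ L, f' x = x := fun x hx =>
      (δL.liftNormal (AlgebraicClosure K)).commutes ⟨x, hx⟩
    have e4 : ∀ x ∈ M, f' x = d x := by
      intro x hx
      have e5 := e2 (algebraMap M M' ⟨x, hx⟩)
      rw [hδLM, hMM', hMM'] at e5
      rw [hdM ⟨x, hx⟩]
      exact e5
    have e6 : ∀ x ∈ M', f' x = d x := by
      rw [hM']
      exact eq_on_sup e4 fun x hx => by rw [e3 x hx, hdL x hx]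
    intro x
    rw [← e6 x x.2]
    exact (e2 x).symm
  have pδL : ∀ (i : ℕ) (x : M'), (((δL ^ i) x : M') : AlgebraicClosure K) = (d ^ i) x := by
    intro i
    induction i with
    | zero => intro x; rfl
    | succ i ih =>
      intro x
      rw [pow_succ', pow_succ', AlgEquiv.mul_apply, AlgEquiv.mul_apply, cδL, ih]
  have pd : ∀ (i : ℕ) (x : M), (d ^ i) (x : AlgebraicClosure K) = ((δ ^ i) x : M) := by
    intro i
    induction i with
    | zero => intro x; rfl
    | succ i ih =>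
      intro x
      rw [pow_succ', pow_succ', AlgEquiv.mul_apply, AlgEquiv.mul_apply, ih, hdM]
  have dm : ∀ x ∈ H, (d ^ finrank K M) x = x := by
    rw [hH]
    refine eq_on_sup (g := 1) (fun x hx => ?_) (fun x hx => fix_pow (hdF x hx) _)
    have e2 := pd (finrank K M) ⟨x, hx⟩
    rw [← hδ, pow_orderOf_eq_one] at e2
    rw [← hδ]
    exact e2
  have hδ'm : δ' ^ finrank K M = 1 := by
    ext y
    rw [pδ', dm y y.2]
    rfl
  have hδLm : δL ^ finrank K M = 1 := by
    ext y
    rw [pδL, dm y (hM'H y.2)]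
    rfl
  have hδ'o : orderOf δ' = finrank K M := by
    apply Nat.dvd_antisymm (orderOf_dvd_of_pow_eq_one hδ'm)
    rw [← hδ]
    apply orderOf_dvd_of_pow_eq_one
    ext x
    rw [← pd]
    have e1 := pδ' (orderOf δ') ⟨x, hMH x.2⟩
    rw [pow_orderOf_eq_one] at e1
    exact e1.symm
  have hδLo : orderOf δL = finrank K M := by
    apply Nat.dvd_antisymm (orderOf_dvd_of_pow_eq_one hδLm)
    rw [← hδ]
    apply orderOf_dvd_of_pow_eq_one
    ext x
    rw [← pd]
    have e1 := pδL (orderOf δL) ⟨x, hMM'le x.2⟩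
    rw [pow_orderOf_eq_one] at e1
    exact e1.symm
  have hγp : γ ^ p = 1 := by
    ext y
    rw [pγ]
    have e1 : ∀ x ∈ H, (gK ^ p) x = (1 : AlgebraicClosure K ≃ₐ[K] AlgebraicClosure K) x := by
      rw [hH]
      exact eq_on_sup (fun x hx => fix_pow (hgM x hx) p) hgFp
    exact e1 y y.2
  have hγ1 : γ ≠ 1 := by
    intro h
    apply hgF1
    intro y hy
    have e3 := cγ ⟨y, hFH hy⟩
    rw [h] at e3
    exact e3.symm
  have hγo : orderOf γ = p := orderOf_eq_prime hγp hγ1
  have hcomm : ∀ y : H, γ (δ' y) = δ' (γ y) := by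
    intro y
    apply Subtype.ext
    rw [cγ, cδ', cδ', cγ]
    have e1 : ∀ x ∈ H, (gK * d) x = (d * gK) x := by
      rw [hH]
      refine eq_on_sup (fun x hx => ?_) (fun x hx => ?_)
      · change gK (d x) = d (gK x)
        rw [hgM x hx, hgM _ (map_mem_normal d hx)]
      · change gK (d x) = d (gK x)
        rw [hdF x hx, hdF _ (stF gK x hx)]
    exact e1 y y.2
  have hγM' : ∀ x : M', γ (algebraMap M' H x) = algebraMap M' H x := fun x => by
    apply Subtype.ext
    rw [cγ, cM'H]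
    exact hgM₂ x (hM'le x.2)
  have hδ'M' : ∀ x : M', δ' (algebraMap M' H x) = algebraMap M' H (δL x) := fun x => by
    apply Subtype.ext
    rw [cδ', cM'H, cM'H, cδL]
  have hδ'M : ∀ x : M, δ' (algebraMap M H x) = algebraMap M H (δ x) := fun x => by
    apply Subtype.ext
    rw [cδ', cMH, cMH, hdM]
  -- the data
  have hclL : PlaceClosed (above (TSet ιinf ιp S) : Set (L →+* ℂ_[p])) := by
    intro σ τ hστ
    exact hcl _ _ fun x => hστ (algebraMap K L x)
  have hdata : HDataW (p := p) L M' H M₂ H₁ (finrank K M) δL γ δ' γ₁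
      (above (TSet ιinf ιp S) : Set (L →+* ℂ_[p])) ε a ⟨s, hsH₁⟩ :=
    { order := hδLo
      deg := hdLM'
      degH := hdM'H
      degH₁ := hdM₂H₁
      compat := fun x => Subtype.ext (hM'M₂ x)
      cop := hcop
      gal := hgal
      prim := hε
      ne := ha
      pow := Subtype.ext hs
      γs := by
        apply Subtype.ext
        rw [cγ₁]
        exact hgs
      ext := fun y => by
        apply Subtype.ext
        rw [cγ₁]
        exact (cγ y).symm
      γM := hγM'
      γo := hγo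
      δM := hδ'M'
      δo := hδ'o
      comm := hcomm
      closed := hclL }
  have htorH : TorOK P δ' :=
    Pool.Agent.Helper3.PPB.b_tor p K M L H (n + 1) hdMH δ δ' P hδ'M htor
  have hacl : IsAlgClosure H (AlgebraicClosure K) :=
    ⟨inferInstance, Algebra.IsAlgebraic.tower_top (K := K) H⟩
  have tLHΩ : IsScalarTower L H (AlgebraicClosure K) :=
    IsScalarTower.of_algebraMap_eq fun x => rfl
  have hnM'Ω : Normal M' (AlgebraicClosure K) := Normal.tower_top_of_normal K M' _
  have tM'HΩ : IsScalarTower M' H (AlgebraicClosure K) :=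
    IsScalarTower.of_algebraMap_eq fun x => rfl
  have hres : ∀ g : H ≃ₐ[M'] H, (∀ x : F, g (algebraMap F H x) = algebraMap F H x) → g = 1 := by
    intro g hg
    have e2 : ∀ x : H, (g.liftNormal (AlgebraicClosure K)) (x : AlgebraicClosure K) =
        ((g x : H) : AlgebraicClosure K) := fun x => g.liftNormal_commutes (AlgebraicClosure K) x
    set f' : AlgebraicClosure K ≃ₐ[K] AlgebraicClosure K :=
      (g.liftNormal (AlgebraicClosure K)).restrictScalars K with hf'
    have e3 : ∀ x ∈ M', f' x = x := fun x hx =>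
      (g.liftNormal (AlgebraicClosure K)).commutes ⟨x, hx⟩
    have e4 : ∀ x ∈ F, f' x = x := fun x hx => by
      have e5 := e2 (algebraMap F H ⟨x, hx⟩)
      rw [hg] at e5
      exact e5
    have e6 : ∀ x ∈ H, f' x = (1 : AlgebraicClosure K ≃ₐ[K] AlgebraicClosure K) x := by
      rw [hH]
      exact eq_on_sup (fun x hx => e3 x (hMM'le hx)) e4
    ext x
    rw [← e2 x]
    exact e6 x x.2
  have hcardM : Nat.card (M ≃ₐ[K] M) = finrank K M := IsGalois.card_aut_eq_finrank K M
  have hcardF : Nat.card (F ≃ₐ[K] F) = p ^ (n + 1) := by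
    rw [IsGalois.card_aut_eq_finrank, hFd]
  have hgenδ : ∀ g : M ≃ₐ[K] M, ∃ t : ℕ, δ ^ t = g := by
    intro g
    have e1 : Subgroup.zpowers δ = ⊤ := Subgroup.eq_top_of_card_eq _ (by
      rw [Nat.card_zpowers, hδ, hcardM])
    have e2 : g ∈ Subgroup.zpowers δ := by rw [e1]; exact Subgroup.mem_top g
    exact (mem_powers_iff_mem_zpowers.2 e2)
  have htyp : TypT M' (AlgebraicClosure K) P δ'
      (above (TSet ιinf ιp S) : Set (L →+* ℂ_[p])) := by
    intro σ' hσ'
    have hσT : σ'.comp (algebraMap K L) ∈ TSet ιinf ιp S := hσ'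
    rcases hT _ hσT with hA | hB
    · left
      intro τ' hτ'
      refine h2 p K F M' H hres (σ'.comp (algebraMap K L)) hA τ' ?_
      rw [← hτ']
      rfl
    · right
      intro τ hτ
      have hτK : τ.comp (algebraMap K (AlgebraicClosure K)) = σ'.comp (algebraMap K L) := by
        rw [← hτ]
        rfl
      obtain ⟨g, r, hg1, hg2, hg3⟩ := hB τ hτK
      obtain ⟨t, ht⟩ := hgenδ (AlgEquiv.restrictNormalHom M g)
      refine h3 p L H (AlgebraicClosure K) δ' P ((χ₀ δ : ℂ_[p]ˣ) : ℂ_[p])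
        (Or.inl ⟨_, Φ, hPhi⟩) τ (g : AlgebraicClosure K →+* AlgebraicClosure K) (n + 1) t r
        hg1 hg2 ?_ ?_
      · rw [hχ', ← ht, map_pow, Units.val_pow_eq_pow_val] at hg3
        exact hg3
      · intro x
        rw [iter_eq]
        have e1 : ∀ x ∈ H, (g ^ p ^ (n + 1)) x = (d ^ (t * p ^ (n + 1))) x := by
          rw [hH]
          refine eq_on_sup (fun x hx => ?_) (fun x hx => ?_)
          · have e2 := AlgEquiv.restrictNormalHom_apply M (g ^ p ^ (n + 1)) ⟨x, hx⟩
            have e3 := pd (t * p ^ (n + 1)) ⟨x, hx⟩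
            rw [map_pow, ← ht, ← pow_mul] at e2
            exact e2.symm.trans e3.symm
          · have e2 := AlgEquiv.restrictNormalHom_apply F (g ^ p ^ (n + 1)) ⟨x, hx⟩
            have e3 : AlgEquiv.restrictNormalHom F g ^ p ^ (n + 1) = 1 := by
              rw [← hcardF]; exact pow_card_eq_one'
            rw [map_pow, e3] at e2
            rw [fix_pow (hdF x hx)]
            exact e2.symm
        rw [show (algebraMap H (AlgebraicClosure K) ((δ' ^ (t * p ^ (n + 1))) x)) =
          (((δ' ^ (t * p ^ (n + 1))) x : H) : AlgebraicClosure K) from rfl, pδ']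
        exact e1 x x.2
  have hne : Nonempty (AlgebraicClosure ℚ →+* ℂ_[p]) :=
    Pool.Agent.Helper50.RS.nonempty_hom ℚ ℂ_[p]
  -- the characters
  have hMr1 : ∀ g : AlgebraicClosure K ≃ₐ[K] AlgebraicClosure K, (∀ x ∈ M, g x = x) →
      χ₀ (AlgEquiv.restrictNormalHom M g) = 1 := fun g hg => by
    rw [res_one_iff.2 hg, map_one]
  have hFr1 : ∀ g : AlgebraicClosure K ≃ₐ[K] AlgebraicClosure K, (∀ x ∈ F, g x = x) →
      η (AlgEquiv.restrictNormalHom F g) = 1 := fun g hg => by
    rw [res_one_iff.2 hg, map_one]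
  have hHf : Hf ≤ H := by
    intro y hy
    apply mem_of_fixed
    intro g hg
    have e1 : χ (AlgEquiv.restrictNormalHom Hf g) = 1 := by
      rw [hchar g, hMr1 g fun x hx => hg x (hMH hx), hFr1 g fun x hx => hg x (hFH hx), one_mul]
    have e2 : AlgEquiv.restrictNormalHom Hf g = 1 := hχ (by rw [e1, map_one])
    exact res_one_iff.1 e2 y hy
  have hχγ : χ (AlgEquiv.restrictNormalHom Hf gK) = η (AlgEquiv.restrictNormalHom F gK) := by
    rw [hchar gK, hMr1 gK hgM, one_mul]
  have hχδ : χ (AlgEquiv.restrictNormalHom Hf d) = χ₀ δ := by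
    have e1 : AlgEquiv.restrictNormalHom M d = δ := by
      ext x
      rw [AlgEquiv.restrictNormalHom_apply]
      exact hdM x
    rw [hchar d, hFr1 d hdF, e1, mul_one]
  have hηp : IsPrimitiveRoot ((η (AlgEquiv.restrictNormalHom F gK) : ℂ_[p]ˣ) : ℂ_[p]) p := by
    have e1 : orderOf (η (AlgEquiv.restrictNormalHom F gK)) = p := by
      apply orderOf_eq_prime
      · rw [← map_pow, ← map_pow]
        exact hFr1 _ hgFp
      · intro h
        obtain ⟨g, g1, g2⟩ := hη
        apply g2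
        have e2 : ∀ x : F, (g.liftNormal (AlgebraicClosure K)) (x : AlgebraicClosure K) =
            ((g x : F) : AlgebraicClosure K) := fun x =>
          g.liftNormal_commutes (AlgebraicClosure K) x
        obtain ⟨i, hi⟩ := key (g.liftNormal (AlgebraicClosure K)) (fun x hx => by
          have e3 := e2 ⟨x, hLF hx⟩
          rw [g1 ⟨x, hLF hx⟩ hx] at e3
          exact e3)
        have e4 : g = AlgEquiv.restrictNormalHom F (gK ^ i) := by
          ext x
          rw [AlgEquiv.restrictNormalHom_apply, ← hi x x.2, e2]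
        rw [e4, map_pow, map_pow, h, one_pow]
    have e2 : orderOf ((η (AlgEquiv.restrictNormalHom F gK) : ℂ_[p]ˣ) : ℂ_[p]) = p := by
      rw [orderOf_units, e1]
    have e3 := IsPrimitiveRoot.orderOf ((η (AlgEquiv.restrictNormalHom F gK) : ℂ_[p]ˣ) : ℂ_[p])
    rwa [e2] at e3
  -- the conclusion
  obtain ⟨i, hi⟩ : ∃ i : Hf →+* H, ∀ x : Hf, ((i x : H) : AlgebraicClosure K) = x :=
    ⟨(IntermediateField.inclusion hHf).toRingHom, fun x => rfl⟩
  have heq : ∀ (g : AlgebraicClosure K ≃ₐ[K] AlgebraicClosure K) (g' : H ≃ₐ[L] H),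
      (∀ x : H, ((g' x : H) : AlgebraicClosure K) = g x) → ∀ x : Hf,
      g' (i x) = i (AlgEquiv.restrictNormalHom Hf g x) := by
    intro g g' hg x
    apply Subtype.ext
    rw [hg, hi, hi, AlgEquiv.restrictNormalHom_apply]
  have hnfHf : NumberField Hf := NumberField.of_module_finite K Hf
  intro x hx
  apply bc_inj (ups i) (ups_inj i)
  rw [map_zero]
  refine h1 p ℂ_[p] hne Lg L M' H M₂ H₁ (AlgebraicClosure K) (finrank K M) δL γ δ' γ₁
    (above (TSet ιinf ιp S) : Set (L →+* ℂ_[p])) ε a ⟨s, hsH₁⟩ _ Φ P hPhi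
    hdata htyp htorH hSel _ hηp _ ?_ ?_ ?_
  · rw [ups_equiv i (AlgEquiv.restrictNormalHom Hf gK) γ (heq gK γ cγ),
      Pool.Agent.Helper50.RS.eig_eChi, map_smul, hχγ]
  · rw [ups_equiv i (AlgEquiv.restrictNormalHom Hf d) δ' (heq d δ' cδ'),
      Pool.Agent.Helper50.RS.eig_eChi, map_smul, hχδ]
  · intro τ' hτ'
    rw [log_ups]
    apply hx
    obtain ⟨σ, hσ⟩ := exists_lift_embedding ιp (τ'.comp i)
    obtain ⟨σ₀, g1, g2⟩ := hτ'
    refine ⟨σ, ?_, ?_⟩
    · have g3 : σ.comp (algebraMap K Hf) = σ₀ := by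
        apply Pool.Agent.Helper50.RS.comp_inj ιp
        show ιp.comp (σ.comp (algebraMap K _)) = ιp.comp σ₀
        rw [← g2, ← RingHom.comp_assoc, hσ]
        ext c
        exact congrArg τ' (Subtype.ext ((hi _).trans (hLM' (algebraMap K L c)).symm))
      rw [g3]
      exact g1
    · rw [hσ]

end Pool.Agent.Helper32.PW
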