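import Pool.Agent.Helper42.PW.Goals2
import Pool.Agent.Helper40.RD.TRF

/-!
# Project W (MP_fc6b1e_nt), packet W-W_THT: the functional above `p`
-/

set_option autoImplicit false

namespace Pool.Agent.Helper32.PW

open NumberField Module IsDedekindDomain
open Pool.Agent.Helper51.RP Pool.Agent.Helper42.PW
open Pool.Agent.Helper40.RS (bel lies)
open Pool.Agent.Helper40.RD (valW bel_of_above)

theorem exists_lin_aux {V : Type} [AddCommGroup V] (p : ℕ) [Fact p.Prime] [Module (ZMod p) V]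
    (v : V) (hv : v ≠ 0) : ∃ φ : V →+ ZMod p, φ v ≠ 0 := by
  obtain ⟨f, hf⟩ := Module.Projective.exists_dual_ne_zero (ZMod p) hv
  exact ⟨LinearMap.toAddMonoidHom f, hf⟩

theorem exists_lin {V : Type} [AddCommGroup V] (p : ℕ) [Fact p.Prime] (h0 : ∀ y : V, p • y = 0)
    (v : V) (hv : v ≠ 0) : ∃ φ : V →+ ZMod p, φ v ≠ 0 :=
  @exists_lin_aux V _ p _ (AddCommGroup.zmodModule h0) v hv

/-- A proper subgroup which contains the `p`-th powers is killed by a functional. -/
theorem exists_functional {A : Type} [CommGroup A] (p : ℕ) [Fact p.Prime] (C : Subgroup A)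
    (hC : ∀ x : A, x ^ p ∈ C) (x₀ : A) (hx₀ : x₀ ∉ C) :
    ∃ θ : A → ZMod p, (∀ x y, θ (x * y) = θ x + θ y) ∧ θ x₀ ≠ 0 ∧ ∀ x ∈ C, θ x = 0 := by
  have h0 : ∀ y : Additive (A ⧸ C), p • y = 0 := by
    intro y
    obtain ⟨x, hx⟩ := QuotientGroup.mk_surjective (Additive.toMul y)
    apply Additive.toMul.injective
    show (Additive.toMul y) ^ p = 1
    rw [← hx, ← QuotientGroup.mk_pow, QuotientGroup.eq_one_iff]
    exact hC x
  have hv0 : (Additive.ofMul (QuotientGroup.mk x₀ : A ⧸ C)) ≠ 0 := by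
    intro h
    apply hx₀
    have h' : (QuotientGroup.mk x₀ : A ⧸ C) = 1 := h
    rwa [QuotientGroup.eq_one_iff] at h'
  obtain ⟨φ, hφ⟩ := exists_lin p h0 _ hv0
  refine ⟨fun x ↦ φ (Additive.ofMul (QuotientGroup.mk x : A ⧸ C)), ?_, hφ, ?_⟩
  · intro x y
    exact map_add φ (Additive.ofMul (QuotientGroup.mk x : A ⧸ C))
      (Additive.ofMul (QuotientGroup.mk y : A ⧸ C))
  · intro x hx
    have h2 : (QuotientGroup.mk x : A ⧸ C) = 1 := (QuotientGroup.eq_one_iff x).2 hx
    show φ (Additive.ofMul (QuotientGroup.mk x : A ⧸ C)) = 0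
    rw [h2]
    exact map_zero φ

theorem w_tht (h1 : N_GRP) : Pool.Agent.Helper42.PW.W_THT := by
  intro p hpf M F _ _ _ _ _ α hα w hex
  have hp := hpf.out
  obtain ⟨x₀, hx₀⟩ := hex
  have hinj : Function.Injective (algebraMap M F) := (algebraMap M F).injective
  let C : Subgroup Mˣ :=
    { carrier := {x | ∀ W : HeightOneSpectrum (𝓞 F), Above W w → NmAt p W α (algebraMap M F (x : M))}
      mul_mem' := by
        intro a b ha hb W hW
        rw [Units.val_mul, map_mul]
        exact ((h1 p F W).2.2.2.2.2.2 α hα).1 _ _ (ha W hW) (hb W hW)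
      one_mem' := by
        intro W hW
        have := ((h1 p F W).2.2.2.2.2.2 α hα).2.2.1 1 one_ne_zero
        rw [Units.val_one, map_one]
        rwa [one_pow] at this
      inv_mem' := by
        intro a ha W hW
        rw [Units.val_inv_eq_inv_val, map_inv₀]
        exact ((h1 p F W).2.2.2.2.2.2 α hα).2.1 _ (ha W hW) }
  have hmem : ∀ x : Mˣ, x ∈ C ↔
      ∀ W : HeightOneSpectrum (𝓞 F), Above W w → NmAt p W α (algebraMap M F (x : M)) :=
    fun x ↦ Iff.rfl
  obtain ⟨θ, t1, t2, t3⟩ := exists_functional p C (by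
    intro x
    rw [hmem]
    intro W hW
    rw [Units.val_pow_eq_pow_val, map_pow]
    exact ((h1 p F W).2.2.2.2.2.2 α hα).2.2.1 _ fun h ↦ x.ne_zero (hinj (by rw [h, map_zero])))
    x₀ hx₀
  refine ⟨θ, t1, ⟨x₀, t2⟩, ?_, fun x hx ↦ t3 x hx⟩
  intro x hx
  apply t3
  rw [hmem]
  intro W hW
  refine ((h1 p F W).2.2.2.2.2.2 α hα).2.2.2.1 _ ?_
  obtain rfl := bel_of_above hW
  have he : (bel M W).asIdeal.ramificationIdx' W.asIdeal ≠ 0 :=
    Ideal.IsDedekindDomain.ramificationIdx'_ne_zero_of_liesOver _ (bel M W).ne_bot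
  have e1 : algebraMap M F (x : M) - 1 = algebraMap M F ((x : M) - 1) := by
    rw [map_sub, map_one]
  have e2 : (p : F) = algebraMap M F (p : M) := (map_natCast (algebraMap M F) p).symm
  constructor
  · rw [e1, valW]
    exact (pow_lt_one_iff_of_nonneg zero_le he).2 hx.1
  · rw [e1, e2, valW, valW, ← pow_mul, mul_comm, pow_mul]
    exact pow_le_pow_left₀ zero_le hx.2 _

end Pool.Agent.Helper32.PW
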